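import Pool.Agent.H.MP_e16cda_ag.B
import Pool.Agent.Results.MP_405529_ag.No

set_option autoImplicit false

namespace Pool.Agent.Results.MP_e16cda_ag.Q2

open Matrix Real Pool.Agent.Results.MP_405529_ag.No Pool.Agent.H.MP_e16cda_ag

variable {g : ℕ}

lemma low {A : Matrix (Fin g) (Fin g) ℝ} (hA : ∀ x : Fin g → ℝ, x ≠ 0 → 0 < x ⬝ᵥ A *ᵥ x) :
    ∃ c, 0 < c ∧ ∀ x : Fin g → ℝ, c * ‖x‖ ^ 2 ≤ x ⬝ᵥ A *ᵥ x := by
  have hc : Continuous fun x : Fin g → ℝ => x ⬝ᵥ A *ᵥ x := by fun_prop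
  obtain ⟨c, hc0, h⟩ := (isCompact_sphere (0 : Fin g → ℝ) 1).exists_forall_le' (a := 0)
    hc.continuousOn fun x hx => hA x (by rintro rfl; simp at hx)
  refine ⟨c, hc0, fun x => ?_⟩
  by_cases hx : x = 0
  · simp [hx]
  have h0 : 0 < ‖x‖ := norm_pos_iff.2 hx
  have := h (‖x‖⁻¹ • x) (by simp [norm_smul, h0.ne'])
  rw [mulVec_smul, dotProduct_smul, smul_dotProduct, smul_eq_mul, smul_eq_mul] at this
  have h2 := mul_le_mul_of_nonneg_right this (sq_nonneg ‖x‖)
  refine h2.trans_eq ?_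
  field_simp

lemma norm_w (n : Fin g → ℤ) (u : Fin g → ℂ) (B : Matrix (Fin g) (Fin g) ℂ) :
    ‖w n u B‖ = Real.exp (2 * π * (-(1 / 2) * ((fun i => (n i : ℝ)) ⬝ᵥ (B.map Complex.re) *ᵥ
      fun i => (n i : ℝ)) + ∑ i, n i * (u i).re)) := by
  rw [w, e, Complex.norm_exp]
  congr 1
  simp [dotProduct, mulVec, Complex.re_sum, Finset.mul_sum]

lemma good {u : Fin g → ℂ} {B : Matrix (Fin g) (Fin g) ℂ} (hB : InH B) :
    Good fun n => p n u B := by
  intro R
  obtain ⟨c, hc, h⟩ := low hB.2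
  have hs : Summable fun k : ℤ => Real.exp (-|(k : ℝ)|) := by
    have : Summable fun k : ℕ => Real.exp (-(k : ℝ)) := Real.summable_exp_neg_nat
    refine Summable.of_nat_of_neg ?_ ?_ <;> simpa using this
  set C := (2 * π * ‖u‖ + |R| + 1) * g with hC
  refine ((summable_pi hs (fun k => (Real.exp_pos _).le) g).mul_left
    (‖1 / theta u B‖ * Real.exp (C ^ 2 / (4 * (π * c))))).of_nonneg_of_le
    (fun n => by positivity) fun n => ?_
  beta_reduce
  rw [p, norm_mul, mul_assoc, mul_assoc, norm_w, ← Real.exp_sum, ← Real.exp_add, ← Real.exp_add]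
  refine mul_le_mul_of_nonneg_left (Real.exp_le_exp.2 ?_) (norm_nonneg _)
  have h1 := h fun i => (n i : ℝ)
  set t := ‖fun i => (n i : ℝ)‖
  have h2 : nm n ≤ g * t := by
    have := Finset.sum_le_card_nsmul Finset.univ (fun i => |(n i : ℝ)|) t fun i _ =>
      norm_le_pi_norm (fun i => (n i : ℝ)) i
    simpa [nm] using this
  have h3 : ∑ i, (n i : ℝ) * (u i).re ≤ ‖u‖ * nm n := by
    rw [nm, Finset.mul_sum]
    refine Finset.sum_le_sum fun i _ => (le_abs_self _).trans ?_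
    rw [abs_mul, mul_comm]
    exact mul_le_mul_of_nonneg_right ((Complex.abs_re_le_norm _).trans (norm_le_pi_norm u i))
      (abs_nonneg _)
  have h4 : ∑ i, -|(n i : ℝ)| = -nm n := by simp [nm]
  have h5 : 0 ≤ nm n := Finset.sum_nonneg fun _ _ => abs_nonneg _
  have h6 : R * nm n ≤ |R| * nm n := mul_le_mul_of_nonneg_right (le_abs_self _) h5
  have h7 : (2 * π * ‖u‖ + |R| + 1) * nm n ≤ C * t := by
    rw [hC, mul_assoc _ (g : ℝ)]
    exact mul_le_mul_of_nonneg_left h2 (by positivity)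
  have h8 : C * t - π * c * t ^ 2 ≤ C ^ 2 / (4 * (π * c)) := by
    rw [le_div_iff₀ (by positivity)]
    nlinarith [sq_nonneg (C - 2 * (π * c) * t)]
  have h9 := mul_le_mul_of_nonneg_left h1 pi_pos.le
  have h10 := mul_le_mul_of_nonneg_left h3 pi_pos.le
  rw [h4]
  nlinarith

lemma cl {u : Fin g → ℂ} {B : Matrix (Fin g) (Fin g) ℂ} (hB : InH B) (h0 : theta u B ≠ 0) :
    Cl fun n => p n u B := by
  refine ⟨good hB, ?_, fun s => (1 / theta u B) ^ 2 * w s u ((1 / 2 : ℂ) • B),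
    fun r => w r 0 ((1 / 2 : ℂ) • B), fun n n' => ?_⟩
  · simp only [M, mon_nil, mul_one, p, tsum_mul_left]
    exact one_div_mul_cancel h0
  · have : w n u B * w n' u B =
        w (n + n') u ((1 / 2 : ℂ) • B) * w (n - n') 0 ((1 / 2 : ℂ) • B) := by
      simp only [w, e, ← Complex.exp_add]
      congr 1
      have e1 : (fun i => ((n + n') i : ℂ)) = (fun i => (n i : ℂ)) + fun i => (n' i : ℂ) := by
        funext i; simp
      have e2 : (fun i => ((n - n') i : ℂ)) = (fun i => (n i : ℂ)) - fun i => (n' i : ℂ) := by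
        funext i; simp
      rw [e1, e2]
      simp only [smul_mulVec, mulVec_add, mulVec_sub, add_dotProduct, sub_dotProduct,
        dotProduct_add, dotProduct_sub, dotProduct_smul, dotProduct_zero, smul_eq_mul]
      ring
    simp only [p]
    linear_combination (1 / theta u B) ^ 2 * this

lemma mon_eq (l : List (Fin g)) : ∑ i, l.count i = l.length ∧
    ∀ n : Fin g → ℤ, mon l n = ∏ i, (n i : ℂ) ^ l.count i := by
  induction l with
  | nil => simp [mon]
  | cons j l ih =>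
    refine ⟨by simp [List.count_cons, Finset.sum_add_distrib, ih.1], fun n => ?_⟩
    simp only [mon_cons, ih.2, List.count_cons, pow_add, Finset.prod_mul_distrib]
    simp [mul_comm]

theorem result (g : ℕ) : ∃ d : ℕ, ∀ (u u' : Fin g → ℂ) (B B' : Matrix (Fin g) (Fin g) ℂ),
    InH B → InH B' → theta u B ≠ 0 → theta u' B' ≠ 0 →
      (∀ α : Fin g → ℕ, ∑ i, α i ≤ d → m α u B = m α u' B') →
      ∀ n : Fin g → ℤ, p n u B = p n u' B' := by
  obtain ⟨d, hd⟩ := fin_det g
  refine ⟨d, fun u u' B B' hB hB' h h' hm =>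
    congrFun (hd _ _ (cl hB h) (cl hB' h') fun l hl => ?_)⟩
  have := hm (fun i => l.count i) ((mon_eq l).1.trans_le hl)
  simpa only [M, m, (mon_eq l).2, mul_comm] using this

end Pool.Agent.Results.MP_e16cda_ag.Q2
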